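import Pool.Agent.MWLQ.StmtsA

/-!
# Row RGC of block MWLQ: core of the comparison with the twin
-/

set_option autoImplicit false

namespace Pool.Agent.MWLQ.H19

open Pool.Agent.Helper14_MV
open Pool.Agent.Helper2_MV (RR)
open Pool.Agent.MWK (pre)
open Pool.Agent.MWGN (nn Tau gh)
open Pool.Agent.MWGQ (pw Z Gn E0 A0 P0)
open Pool.Agent.MWLE (pin sep con tl tll Sg t1 Fc Fb Fy Fx Fu Fz rz sf k0)
open Pool.Agent.MWLQ

theorem dn_append (n : ℕ) (u v : List ℕ) : dn n (u ++ v) = dn n u ++ dn n v := by
  unfold dn
  rw [List.flatMap_append]

theorem dq_append (n : ℕ) (Q : ℕ → Bool) (u v : List ℕ) :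
    dq n Q (u ++ v) = dq n Q u ++ dq n Q v := by
  unfold dq
  rw [List.flatMap_append]

theorem dq_cons (n : ℕ) (Q : ℕ → Bool) (c : ℕ) (v : List ℕ) :
    dq n Q (c :: v) = (if Q c then [c] else List.replicate (n + 1) c) ++ dq n Q v := rfl

theorem dn_rep (n c : ℕ) : ∀ g, dn n (List.replicate g c) = List.replicate ((n + 1) * g) c
  | 0 => rfl
  | g + 1 => by
    have e : dn n (List.replicate (g + 1) c) =
        List.replicate (n + 1) c ++ dn n (List.replicate g c) := rfl
    rw [e, dn_rep n c g, List.replicate_append_replicate]
    congr 1
    ring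

theorem dq_rep (n c : ℕ) (Q : ℕ → Bool) (hQ : Q c = false) :
    ∀ g, dq n Q (List.replicate g c) = List.replicate ((n + 1) * g) c
  | 0 => rfl
  | g + 1 => by
    have e : dq n Q (List.replicate (g + 1) c) =
        (if Q c then [c] else List.replicate (n + 1) c) ++ dq n Q (List.replicate g c) := rfl
    rw [e, hQ, dq_rep n c Q hQ g, if_neg (by simp), List.replicate_append_replicate]
    congr 1
    ring

theorem pw_single (a c : ℕ) : pw a [c] = List.replicate a c := by
  unfold pw
  induction a with
  | zero => rfl
  | succ a ih => rw [List.replicate_succ, List.flatten_cons, ih]; rfl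

/-- exponents behind an occurrence -/
theorem cex (h1 : MWGQ.PwxStmt) {n : ℕ} {β : FIC} (hG : Gn n β) {A : List ℕ} {c a b : ℕ}
    (hc : c ∈ A) (ha : 1 ≤ a) (hb : 1 ≤ b) (hab : a ≡ b [MOD n]) (B : List ℕ) :
    RR β (A ++ (List.replicate a c ++ B)) (A ++ (List.replicate b c ++ B)) := by
  obtain ⟨A1, A2, rfl⟩ := List.append_of_mem hc
  have e := (h1 n β hG).2.1 [c] A2 a b ha hb hab
  rw [pw_single, pw_single] at e
  have e2 := (RR.refl A1).append (e.append (RR.refl B))
  simpa [List.append_assoc] using e2

theorem flat_Z {f : ℕ → List ℕ} {c : ℕ} (h : f 0 = [c]) : ∀ k : ℕ,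
    (Z k).flatMap f = List.replicate k c
  | 0 => rfl
  | k + 1 => by
    have e : (Z (k + 1)).flatMap f = f 0 ++ (Z k).flatMap f := rfl
    rw [e, flat_Z h k, h]
    rfl

theorem perm_count (c : ℕ) (G : List ℕ) :
    G.Perm (List.replicate (G.count c) c ++ G.filter (fun a => decide (a ≠ c))) := by
  rw [List.perm_iff_count]
  intro d
  rw [List.count_append, List.count_replicate]
  by_cases hd : d = c
  · subst hd
    have e : (G.filter (fun a => decide (a ≠ d))).count d = 0 := by
      apply List.count_eq_zero.mpr
      intro h
      have h2 := (List.mem_filter.mp h).2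
      rw [decide_eq_true_iff] at h2
      exact h2 rfl
    rw [e]
    simp
  · rw [List.count_filter (by simpa using hd)]
    have : (c == d) = false := by
      simpa using Ne.symm hd
    rw [this]
    simp

theorem rgc (h1 : MWGQ.PwxStmt) (h2 : DdcStmt) : RgcStmt := by
  intro n β hG hF Q P G R z hA hD hP hQz hnd hPR hzR
  obtain ⟨N, hN⟩ : ∃ N, G.length ≤ N := ⟨_, le_refl _⟩
  induction N generalizing G P with
  | zero =>
    have : G = [] := List.length_eq_zero_iff.mp (by omega)
    subst this
    exact RR.refl _
  | succ N ih =>
    by_cases hG0 : G = []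
    · subst hG0
      exact RR.refl _
    have ha0 := hA hG0
    obtain ⟨c, G1, hG1⟩ : ∃ c G1, G = c :: G1 := List.exists_cons_of_ne_nil hG0
    have hcG : c ∈ G := by rw [hG1]; exact List.mem_cons_self
    obtain ⟨g, hg⟩ : ∃ g, g = G.count c := ⟨_, rfl⟩
    have hg1 : 1 ≤ g := by rw [hg]; exact List.count_pos_iff.mpr hcG
    obtain ⟨G', hG'⟩ : ∃ G', G' = G.filter (fun a => decide (a ≠ c)) := ⟨_, rfl⟩
    have hperm : G.Perm (List.replicate g c ++ G') := by
      rw [hg, hG']
      exact perm_count c G
    have hmem' : ∀ a ∈ G', a ∈ G ∧ a ≠ c := by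
      intro a ha
      rw [hG', List.mem_filter, decide_eq_true_iff] at ha
      exact ha
    have hlen : G'.length ≤ N := by
      have e := hperm.length_eq
      rw [List.length_append, List.length_replicate] at e
      omega
    obtain ⟨hcP, hQc⟩ := hP c hcG
    obtain ⟨P1, P2, hPP⟩ := List.append_of_mem hcP
    obtain ⟨R1, R2, hR⟩ := List.append_of_mem hzR
    have hn := hG.pos
    have hdn : dn n (List.replicate g c ++ G') =
        List.replicate ((n + 1) * g) c ++ dn n G' := by
      rw [dn_append, dn_rep]
    have edq : dq n Q P = dq n Q P1 ++ (List.replicate (n + 1) c ++ dq n Q P2) := by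
      rw [hPP, dq_append, dq_cons, hQc, if_neg (by simp)]
    have hcdq : c ∈ dq n Q P := by
      rw [edq, List.replicate_succ]
      simp
    have hgg : (n + 1) * g = ((n + 1) * g - 1) + 1 := by
      have : 1 ≤ (n + 1) * g := Nat.mul_pos (by omega) hg1
      omega
    -- (0)
    have s0 : RR β (dq n Q P ++ z :: (dn n G ++ R))
        (dq n Q P ++ z :: (List.replicate ((n + 1) * g) c ++ (dn n G' ++ R))) := by
      have e := (h2 n β hG G [] (dq n Q P ++ [z]) R).2.2.2 _ hperm
      rw [hdn] at e
      simpa [List.append_assoc] using e
    -- (1) fill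
    have s1 : RR β (dq n Q P ++ z :: (List.replicate ((n + 1) * g) c ++ (dn n G' ++ R)))
        (dq n Q P ++ (List.replicate n c ++
          z :: (List.replicate ((n + 1) * g) c ++ (dn n G' ++ R)))) := by
      have e := hF Q (dq n Q P1) P2 [z]
        (List.replicate ((n + 1) * g - 1) c ++ (dn n G' ++ R)) c
        (by
          refine List.Nodup.sublist ?_ hnd
          apply List.Sublist.filter
          rw [hPP]
          apply List.Sublist.append_right
          exact (List.sublist_cons_self _ _).trans (List.sublist_append_right _ _))
        (by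
          intro a ha hQa
          apply List.mem_append_right
          apply List.mem_append_right
          rcases List.mem_append.mp ha with h | h
          · exact hPR a (by rw [hPP]; simp [h]) hQa
          · rw [List.mem_singleton.mp h]
            exact hzR)
      have ez : dq n Q [z] = [z] := by
        rw [dq_cons, if_pos hQz]
        rfl
      rw [ez] at e
      have e5 : List.replicate ((n + 1) * g) c = c :: List.replicate ((n + 1) * g - 1) c := by
        conv_lhs => rw [hgg, List.replicate_succ]
      rw [edq, e5]
      simp only [List.append_assoc, List.cons_append, List.nil_append] at e ⊢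
      exact e
    -- (2) exponents
    have s2 : RR β (dq n Q P ++ (List.replicate n c ++
          z :: (List.replicate ((n + 1) * g) c ++ (dn n G' ++ R))))
        (dq n Q P ++ (List.replicate (2 * n) c ++
          z :: (List.replicate (n + g) c ++ (dn n G' ++ R)))) := by
      have e1 := cex h1 hG hcdq hn (by omega : 1 ≤ 2 * n)
        ((Nat.modEq_iff_dvd' (by omega)).mpr ⟨1, by omega⟩)
        (z :: (List.replicate ((n + 1) * g) c ++ (dn n G' ++ R)))
      have e2 := cex h1 hG (A := dq n Q P ++ (List.replicate (2 * n) c ++ [z]))
        (List.mem_append_left _ hcdq) (by omega : 1 ≤ (n + 1) * g) (by omega : 1 ≤ n + g)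
        (a := (n + 1) * g) (b := n + g)
        (by
          have e : (n + 1) * g = g + n * g := by ring
          have e' : n + g = g + n * 1 := by ring
          rw [e, e']
          unfold Nat.ModEq
          rw [Nat.add_mul_mod_self_left, Nat.add_mul_mod_self_left]) (dn n G' ++ R)
      have e3 : RR β (dq n Q P ++ (List.replicate (2 * n) c ++
          z :: (List.replicate ((n + 1) * g) c ++ (dn n G' ++ R))))
          (dq n Q P ++ (List.replicate (2 * n) c ++
            z :: (List.replicate (n + g) c ++ (dn n G' ++ R)))) := by
        simpa [List.append_assoc] using e2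
      exact β.trans e1 e3
    -- (3) crossing
    have s3 : RR β (dq n Q P ++ (List.replicate (2 * n + g) c ++
          z :: (List.replicate n c ++ (dn n G' ++ R))))
        (dq n Q P ++ (List.replicate (2 * n) c ++
          z :: (List.replicate (n + g) c ++ (dn n G' ++ R)))) := by
      have e := hD c hcG
      rw [← hg] at e
      have e1 := e.sub (fun i => if i = 0 then [c] else if i = 1 then [z] else dn n G' ++ R1)
      have f1 := flat_Z (f := fun i => if i = 0 then [c] else if i = 1 then [z] else
          dn n G' ++ R1) (c := c) rfl
      rw [List.flatMap_append, List.flatMap_append, List.flatMap_cons, List.flatMap_cons,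
        List.flatMap_append, List.flatMap_append, f1, f1, f1, f1] at e1
      have e3 := (RR.refl (dq n Q P)).append (e1.append (RR.refl R2))
      rw [hR]
      simpa [List.append_assoc] using e3
    -- (4) A0
    have s4 : RR β (dq n Q P ++ (List.replicate (2 * n + g) c ++ z :: (dn n G' ++ R)))
        (dq n Q P ++ (List.replicate (2 * n + g) c ++
          z :: (List.replicate n c ++ (dn n G' ++ R)))) := by
      have e1 : RR β [0, 0, 1, 2, 1] ([0, 0, 1] ++ (Z n ++ [2, 1])) := ha0
      have e2 := e1.sub (fun i => if i = 0 then [c] else if i = 1 then [z] else dn n G' ++ R1)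
      have f1 := flat_Z (f := fun i => if i = 0 then [c] else if i = 1 then [z] else
          dn n G' ++ R1) (c := c) rfl
      rw [List.flatMap_append, List.flatMap_append, f1] at e2
      have e3 := (RR.refl (dq n Q P ++ List.replicate (2 * n + g - 2) c)).append
        (e2.append (RR.refl R2))
      have e4 : List.replicate (2 * n + g) c = List.replicate (2 * n + g - 2) c ++ [c, c] := by
        have : [c, c] = List.replicate 2 c := rfl
        rw [this, List.replicate_append_replicate]
        congr 1
        omega
      rw [hR, e4]
      simpa [List.append_assoc] using e3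
    -- (5) exponents
    have s5 : RR β (dq n Q P ++ (List.replicate (2 * n + g) c ++ z :: (dn n G' ++ R)))
        (dq n Q P ++ (List.replicate ((n + 1) * g) c ++ z :: (dn n G' ++ R))) :=
      cex h1 hG hcdq (by omega) (by omega) (by
          have e : (n + 1) * g = g + n * g := by ring
          have e' : 2 * n + g = g + n * 2 := by ring
          rw [e, e']
          unfold Nat.ModEq
          rw [Nat.add_mul_mod_self_left, Nat.add_mul_mod_self_left]) _
    have edq' : dq n Q (P ++ List.replicate g c) =
        dq n Q P ++ List.replicate ((n + 1) * g) c := by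
      rw [dq_append, dq_rep n c Q hQc]
    have hrep : (List.replicate g c).filter Q = [] := by
      apply List.filter_eq_nil_iff.mpr
      intro a ha
      rw [List.eq_of_mem_replicate ha, hQc]
      simp
    have s6 := ih (P ++ List.replicate g c) G' (fun _ => ha0)
      (by
        intro a ha
        have e : G'.count a = G.count a := by
          rw [hG']
          exact List.count_filter (by simpa using (hmem' a ha).2)
        rw [e]
        exact hD a (hmem' a ha).1)
      (by
        intro a ha
        exact ⟨List.mem_append_left _ (hP a (hmem' a ha).1).1, (hP a (hmem' a ha).1).2⟩)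
      (by
        rw [List.filter_append, List.filter_append, hrep, List.append_nil, ← List.filter_append]
        exact hnd)
      (by
        intro a ha hQa
        rcases List.mem_append.mp ha with h | h
        · exact hPR a h hQa
        · rw [List.eq_of_mem_replicate h, hQc] at hQa
          exact absurd hQa (by simp))
      hlen
    rw [edq'] at s6
    have s7 : RR β (dq n Q P ++ (dn n G ++ z :: R))
        (dq n Q P ++ (List.replicate ((n + 1) * g) c ++ (dn n G' ++ z :: R))) := by
      have e := (h2 n β hG G [] (dq n Q P) (z :: R)).2.2.2 _ hperm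
      rw [hdn] at e
      simpa [List.append_assoc] using e
    have s6' : RR β (dq n Q P ++ (List.replicate ((n + 1) * g) c ++ z :: (dn n G' ++ R)))
        (dq n Q P ++ (List.replicate ((n + 1) * g) c ++ (dn n G' ++ z :: R))) := by
      simpa [List.append_assoc] using s6
    exact β.trans (β.trans (β.trans (β.trans (β.trans (β.trans (β.trans s0 s1) s2) s3.symm)
      s4.symm) s5) s6') s7.symm

end Pool.Agent.MWLQ.H19
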